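import Mathlib
import Pool.Agent.KS6_3.HT0.Helper366.IV.Rep

set_option autoImplicit false
open MeasureTheory Metric Set Filter Topology Complex
open scoped ContDiff ENNReal ComplexConjugate
open Pool.Agent.Helper366.IV (KM KM_int KM_eq cauchy_pompeiu)

namespace Pool.Agent.H807R3

abbrev E := ℂ × ℂ

instance instHaarE : (volume : Measure (ℂ × ℂ)).IsAddHaarMeasure :=
  Measure.prod.instIsAddHaarMeasure _ _

theorem two_le_infty : (2 : WithTop ℕ∞) ≤ ((⊤ : ℕ∞) : WithTop ℕ∞) := WithTop.coe_le_coe.2 le_top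

/-- smooth with compact support -/
def Cc (g : E → ℂ) : Prop := ContDiff ℝ ∞ g ∧ HasCompactSupport g

noncomputable def D (ι : ℂ →L[ℝ] E) (c : ℂ) (φ : E → ℂ) (p : E) : ℂ :=
  (fderiv ℝ φ p (ι 1) + c * I * fderiv ℝ φ p (ι I)) / 2

noncomputable def ker (x : ℂ) : ℂ := (Real.pi : ℂ)⁻¹ * KM 4 x

noncomputable def S (ι : ℂ →L[ℝ] E) (g : E → ℂ) (p : E) : ℂ := ∫ x, ker x * g (p - ι x)

theorem ker_int : Integrable ker := (KM_int 4).const_mul _

theorem ker_zero {x : ℂ} (hx : 4 ≤ ‖x‖) : ker x = 0 := by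
  unfold ker KM
  rw [indicator_of_notMem]
  · simp
  · simpa using hx

theorem contDiff_fderiv_apply {g : E → ℂ} (hg : ContDiff ℝ ∞ g) (v : E) :
    ContDiff ℝ ∞ (fun q => fderiv ℝ g q v) :=
  (hg.fderiv_right (m := ∞) (by simp)).clm_apply contDiff_const

theorem Cc.fderiv_apply {g : E → ℂ} (hg : Cc g) (v : E) : Cc (fun q => fderiv ℝ g q v) :=
  ⟨contDiff_fderiv_apply hg.1 v, hg.2.fderiv_apply ℝ v⟩

theorem Cc.D {g : E → ℂ} (hg : Cc g) (ι : ℂ →L[ℝ] E) (c : ℂ) : Cc (D ι c g) := by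
  have h1 := hg.fderiv_apply (ι 1)
  have h2 := hg.fderiv_apply (ι I)
  constructor
  · unfold Pool.Agent.H807R3.D
    exact (h1.1.add (contDiff_const.mul h2.1)).div_const _
  · have h3 : HasCompactSupport ((fun q => fderiv ℝ g q (ι 1)) + (fun q => c * I * fderiv ℝ g q (ι I))) :=
      h1.2.add (h2.2.mul_left)
    exact h3.comp_left (g := fun z : ℂ => z / 2) (by simp)

theorem Cc.bdd {g : E → ℂ} (hg : Cc g) : ∃ C, ∀ p, ‖g p‖ ≤ C :=
  hg.2.exists_bound_of_continuous hg.1.continuous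

theorem Cc.memLp {g : E → ℂ} (hg : Cc g) : MemLp g 2 volume :=
  hg.1.continuous.memLp_of_hasCompactSupport hg.2

theorem Cc.add {g h : E → ℂ} (hg : Cc g) (hh : Cc h) : Cc (g + h) :=
  ⟨hg.1.add hh.1, hg.2.add hh.2⟩

theorem S_integrable (ι : ℂ →L[ℝ] E) {F : Type*} [NormedAddCommGroup F] [NormedSpace ℂ F]
    {g : E → F} (hg : Continuous g) {C : ℝ}
    (hC : ∀ p, ‖g p‖ ≤ C) (p : E) : Integrable (fun x => ker x • g (p - ι x)) := by
  refine Integrable.mono' (ker_int.norm.const_mul C) ?_ ?_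
  · exact ker_int.aestronglyMeasurable.smul (by fun_prop : Continuous fun x => g (p - ι x)).aestronglyMeasurable
  · refine ae_of_all _ (fun x => ?_)
    rw [norm_smul, mul_comm]
    exact mul_le_mul_of_nonneg_right (hC _) (norm_nonneg _)

theorem Cc.S_integrable {g : E → ℂ} (hg : Cc g) (ι : ℂ →L[ℝ] E) (p : E) :
    Integrable (fun x => ker x * g (p - ι x)) := by
  obtain ⟨C, hC⟩ := hg.bdd
  exact Pool.Agent.H807R3.S_integrable ι hg.1.continuous hC p

theorem hasFDerivAt_S {g : E → ℂ} (hg : Cc g) (ι : ℂ →L[ℝ] E) (p : E) :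
    HasFDerivAt (S ι g) (∫ x, ker x • fderiv ℝ g (p - ι x)) p := by
  have hcont : Continuous (fderiv ℝ g) := hg.1.continuous_fderiv (by simp)
  obtain ⟨C, hC⟩ := (hg.2.fderiv ℝ).exists_bound_of_continuous hcont
  refine hasFDerivAt_integral_of_dominated_of_fderiv_le (bound := fun x => C * ‖ker x‖)
    (F := fun p x => ker x * g (p - ι x)) (F' := fun p x => ker x • fderiv ℝ g (p - ι x)) (s := univ) univ_mem ?_ ?_ ?_ ?_ ?_ ?_
  · exact Eventually.of_forall (fun q => (hg.S_integrable ι q).aestronglyMeasurable)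
  · exact hg.S_integrable ι p
  · exact (Pool.Agent.H807R3.S_integrable ι hcont hC p).aestronglyMeasurable
  · refine ae_of_all _ (fun x q _ => ?_)
    rw [norm_smul, mul_comm]
    exact mul_le_mul_of_nonneg_right (hC _) (norm_nonneg _)
  · exact ker_int.norm.const_mul C
  · refine ae_of_all _ (fun x q _ => ?_)
    have h1 : HasFDerivAt g (fderiv ℝ g (q - ι x)) (q - ι x) :=
      (hg.1.differentiable (by simp) _).hasFDerivAt
    have h2 : HasFDerivAt (fun q : E => g (q - ι x)) (fderiv ℝ g (q - ι x)) q := by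
      have h3 := h1.comp q ((hasFDerivAt_id q).sub_const (ι x))
      rw [ContinuousLinearMap.comp_id] at h3
      exact h3
    exact h2.const_mul (ker x)

theorem fderiv_S {g : E → ℂ} (hg : Cc g) (ι : ℂ →L[ℝ] E) (p v : E) :
    fderiv ℝ (S ι g) p v = S ι (fun q => fderiv ℝ g q v) p := by
  have hcont : Continuous (fderiv ℝ g) := hg.1.continuous_fderiv (by simp)
  obtain ⟨C, hC⟩ := (hg.2.fderiv ℝ).exists_bound_of_continuous hcont
  rw [(hasFDerivAt_S hg ι p).fderiv, ContinuousLinearMap.integral_apply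
    (Pool.Agent.H807R3.S_integrable ι hcont hC p)]
  rfl

theorem D_S {g : E → ℂ} (hg : Cc g) (ι ι' : ℂ →L[ℝ] E) (c : ℂ) (p : E) :
    D ι' c (S ι g) p = S ι (D ι' c g) p := by
  unfold D
  rw [fderiv_S hg, fderiv_S hg]
  unfold S
  rw [← integral_const_mul, ← integral_add ((hg.fderiv_apply _).S_integrable ι p)
    (((hg.fderiv_apply _).S_integrable ι p).const_mul _), ← integral_div]
  congr 1
  funext x
  ring

theorem S_add {g h : E → ℂ} (hg : Cc g) (hh : Cc h) (ι : ℂ →L[ℝ] E) (p : E) :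
    S ι (g + h) p = S ι g p + S ι h p := by
  unfold S
  rw [← integral_add (hg.S_integrable ι p) (hh.S_integrable ι p)]
  congr 1
  funext x
  simp only [Pi.add_apply]
  ring

theorem S_smul (g : E → ℂ) (a : ℂ) (ι : ℂ →L[ℝ] E) (p : E) :
    S ι (a • g) p = a * S ι g p := by
  unfold S
  rw [← integral_const_mul]
  congr 1
  funext x
  simp only [Pi.smul_apply, smul_eq_mul]
  ring

theorem Cc.S_contDiff {g : E → ℂ} (hg : Cc g) (ι : ℂ →L[ℝ] E) (π : E →L[ℝ] ℂ) (hπ : ∀ x, π (ι x) = x) :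
    ContDiff ℝ ∞ (S ι g) := by
  rw [contDiff_iff_contDiffAt]
  intro p₀
  obtain ⟨R, hR⟩ := (hg.2.isCompact.isBounded).subset_closedBall (0 : E)
  have hk : IsCompact (closedBall (0:ℂ) (‖π‖ * R + ‖π‖ * (‖p₀‖ + 1))) := isCompact_closedBall _ _
  have hgs : ∀ p : E, ∀ x : ℂ, p ∈ ball p₀ 1 → x ∉ closedBall (0:ℂ) (‖π‖ * R + ‖π‖ * (‖p₀‖ + 1)) →
      (fun (p : E) (x : ℂ) => g (p + ι x)) p x = 0 := by
    intro p x hp hx
    by_contra hne
    apply hx
    have h1 : p + ι x ∈ closedBall (0:E) R := hR (subset_tsupport _ hne)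
    rw [mem_closedBall_zero_iff] at h1 ⊢
    have h2 : x = π (p + ι x) - π p := by rw [map_add, hπ]; ring
    have h3 : ‖p‖ ≤ ‖p₀‖ + 1 := by
      have : ‖p - p₀‖ < 1 := by simpa [dist_eq_norm] using hp
      calc ‖p‖ = ‖p₀ + (p - p₀)‖ := by congr 1; abel
        _ ≤ ‖p₀‖ + ‖p - p₀‖ := norm_add_le _ _
        _ ≤ _ := by linarith
    calc ‖x‖ = ‖π (p + ι x) - π p‖ := by rw [← h2]
      _ ≤ ‖π (p + ι x)‖ + ‖π p‖ := norm_sub_le _ _
      _ ≤ ‖π‖ * ‖p + ι x‖ + ‖π‖ * ‖p‖ := add_le_add (π.le_opNorm _) (π.le_opNorm _)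
      _ ≤ _ := by gcongr
  have hg' : ContDiffOn ℝ ∞ (Function.uncurry (fun (p : E) (x : ℂ) => g (p + ι x))) (ball p₀ 1 ×ˢ univ) := by
    have : ContDiff ℝ ∞ (fun q : E × ℂ => g (q.1 + ι q.2)) :=
      hg.1.comp (contDiff_fst.add (ι.contDiff.comp contDiff_snd))
    exact this.contDiffOn
  have := contDiffOn_convolution_right_with_param_comp (n := ⊤) (ContinuousLinearMap.mul ℝ ℂ)
    (v := fun _ : E => (0:ℂ)) (s := ball p₀ 1) contDiffOn_const (f := ker) isOpen_ball hk hgs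
    ker_int.locallyIntegrable hg'
  have h2 := this.contDiffAt (isOpen_ball.mem_nhds (mem_ball_self one_pos))
  convert h2 using 2 with p
  unfold S
  rw [convolution_def]
  congr 1
  funext x
  simp [sub_eq_add_neg]

theorem Cc.S {g : E → ℂ} (hg : Cc g) (ι : ℂ →L[ℝ] E) (π : E →L[ℝ] ℂ) (hπ : ∀ x, π (ι x) = x) :
    Cc (S ι g) := by
  refine ⟨hg.S_contDiff ι π hπ, ?_⟩
  have hK : IsCompact ((fun q : E × ℂ => q.1 + ι q.2) '' (tsupport g ×ˢ closedBall (0:ℂ) 4)) :=
    (hg.2.isCompact.prod (isCompact_closedBall _ _)).image (by fun_prop)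
  refine HasCompactSupport.intro hK (fun p hp => ?_)
  unfold Pool.Agent.H807R3.S
  rw [integral_eq_zero_of_ae]
  refine ae_of_all _ (fun x => ?_)
  show ker x * g (p - ι x) = 0
  by_contra hne
  have h1 : ker x ≠ 0 := left_ne_zero_of_mul hne
  have h2 : g (p - ι x) ≠ 0 := right_ne_zero_of_mul hne
  apply hp
  refine ⟨(p - ι x, x), ⟨subset_tsupport _ h2, ?_⟩, by simp⟩
  rw [mem_closedBall_zero_iff]
  by_contra hlt
  push Not at hlt
  exact h1 (ker_zero hlt.le)

/-- support of S in the complementary variable -/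
theorem S_eq_zero {g : E → ℂ} (ι : ℂ →L[ℝ] E) {A : Set E} (hA : ∀ p, g p ≠ 0 → p ∈ A)
    {p : E} (hp : ∀ x, p - ι x ∉ A) : S ι g p = 0 := by
  unfold S
  rw [integral_eq_zero_of_ae]
  refine ae_of_all _ (fun x => ?_)
  show ker x * g (p - ι x) = 0
  have : g (p - ι x) = 0 := by
    by_contra h
    exact hp x (hA _ h)
  rw [this, mul_zero]

/-- Cauchy-Pompeiu -/
theorem S_D {g : E → ℂ} (hg : Cc g) (ι : ℂ →L[ℝ] E) (π : E →L[ℝ] ℂ) (hπ : ∀ x, π (ι x) = x)
    (hs : ∀ p, g p ≠ 0 → ‖π p‖ < 1) {p : E} (hp : ‖π p‖ ≤ 2) : S ι (D ι 1 g) p = g p := by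
  set φ : ℂ → ℂ := fun x => g (p + ι x) with hφ
  have hφd : ContDiff ℝ ∞ φ := hg.1.comp (contDiff_const.add ι.contDiff)
  have hφc : HasCompactSupport φ := by
    refine HasCompactSupport.intro (isCompact_closedBall (0:ℂ) 3) (fun x hx => ?_)
    by_contra hne
    have h1 := hs _ hne
    rw [map_add, hπ] at h1
    apply hx
    rw [mem_closedBall_zero_iff]
    calc ‖x‖ = ‖(π p + x) - π p‖ := by congr 1; ring
      _ ≤ ‖π p + x‖ + ‖π p‖ := norm_sub_le _ _
      _ ≤ 3 := by linarith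
  have hcp := cauchy_pompeiu φ (hφd.of_le (by exact_mod_cast le_top)) hφc 0
  have hfd : ∀ w v : ℂ, fderiv ℝ φ (0 - w) v = fderiv ℝ g (p - ι w) (ι v) := by
    intro w v
    have h1 : HasFDerivAt g (fderiv ℝ g (p + ι (0 - w))) (p + ι (0 - w)) :=
      (hg.1.differentiable (by simp) _).hasFDerivAt
    have h2 := h1.comp (0 - w) (ι.hasFDerivAt.const_add p)
    have h3 : p + ι (0 - w) = p - ι w := by rw [zero_sub, map_neg]; abel
    rw [h3] at h2
    have : fderiv ℝ φ (0 - w) = (fderiv ℝ g (p - ι w)).comp ι := h2.fderiv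
    rw [this]; rfl
  simp_rw [hfd] at hcp
  have h0 : φ 0 = g p := by simp [hφ]
  rw [h0] at hcp
  have hpi : (Real.pi : ℂ) ≠ 0 := by exact_mod_cast Real.pi_ne_zero
  have key : S ι (D ι 1 g) p = (Real.pi : ℂ)⁻¹ * ∫ w, (fderiv ℝ g (p - ι w) (ι 1) +
      I * fderiv ℝ g (p - ι w) (ι I)) / 2 / w := by
    unfold S
    rw [← integral_const_mul]
    congr 1
    funext w
    show ker w * D ι 1 g (p - ι w) = _
    rcases lt_or_ge ‖w‖ 4 with h | h
    · unfold ker D
      rw [KM_eq h]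
      field_simp
    · rw [ker_zero h]
      have hz : fderiv ℝ g (p - ι w) = 0 := by
        have hopen : IsOpen {q : E | 1 < ‖π q‖} := isOpen_lt continuous_const (by fun_prop)
        have hmem : p - ι w ∈ {q : E | 1 < ‖π q‖} := by
          show 1 < ‖π (p - ι w)‖
          rw [map_sub, hπ]
          have : ‖w‖ ≤ ‖π p - w‖ + ‖π p‖ := by
            calc ‖w‖ = ‖π p - (π p - w)‖ := by congr 1; ring
              _ ≤ ‖π p‖ + ‖π p - w‖ := norm_sub_le _ _
              _ = _ := by ring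
          linarith
        have hev : g =ᶠ[𝓝 (p - ι w)] fun _ => 0 := by
          filter_upwards [hopen.mem_nhds hmem] with q hq
          by_contra hne
          have := hs q hne
          have hq' : 1 < ‖π q‖ := hq
          linarith
        rw [hev.fderiv_eq]; simp
      rw [hz]; simp
  rw [key, hcp]
  field_simp

end Pool.Agent.H807R3
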