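import Mathlib
import Pool.Agent.KS6_3.HT0.H807R3.Op

set_option autoImplicit false
open MeasureTheory Metric Set Filter Topology Complex
open scoped ContDiff ENNReal ComplexConjugate

namespace Pool.Agent.H807R3

theorem D_mul {a b : E → ℂ} {p : E} (ha : DifferentiableAt ℝ a p) (hb : DifferentiableAt ℝ b p)
    (ι : ℂ →L[ℝ] E) (c : ℂ) :
    D ι c (fun q => a q * b q) p = D ι c a p * b p + a p * D ι c b p := by
  unfold D
  rw [fderiv_fun_mul ha hb]
  simp only [add_apply, smul_apply, smul_eq_mul]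
  ring

theorem cs_aux (κ h : ℂ → ℝ≥0∞) (hκ : Measurable κ) (hh : Measurable h) :
    (∫⁻ x, κ x * h x) ^ (2:ℝ) ≤ (∫⁻ x, κ x) * ∫⁻ x, κ x * h x ^ (2:ℝ) := by
  have h1 := ENNReal.lintegral_mul_le_Lp_mul_Lq (volume : Measure ℂ)
    (p := 2) (q := 2) (Real.HolderConjugate.two_two)
    (f := fun x => κ x ^ (1/2:ℝ)) (g := fun x => κ x ^ (1/2:ℝ) * h x)
    (hκ.pow_const _).aemeasurable ((hκ.pow_const _).mul hh).aemeasurable
  have h2 : ∀ x, κ x ^ (1/2:ℝ) * κ x ^ (1/2:ℝ) = κ x := by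
    intro x
    rw [← ENNReal.rpow_add_of_nonneg _ _ (by norm_num) (by norm_num)]
    norm_num
  have h3 : ∀ x, (κ x ^ (1/2:ℝ)) ^ (2:ℝ) = κ x := by
    intro x
    rw [← ENNReal.rpow_mul]; norm_num
  have e1 : (∫⁻ x, ((fun x => κ x ^ (1/2:ℝ)) * (fun x => κ x ^ (1/2:ℝ) * h x)) x) = ∫⁻ x, κ x * h x := by
    congr 1; funext x
    simp only [Pi.mul_apply]
    rw [← mul_assoc, h2]
  have e2 : (∫⁻ x, (fun x => κ x ^ (1/2:ℝ)) x ^ (2:ℝ)) = ∫⁻ x, κ x := by
    congr 1; funext x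
    exact h3 x
  have e3 : (∫⁻ x, (fun x => κ x ^ (1/2:ℝ) * h x) x ^ (2:ℝ)) = ∫⁻ x, κ x * h x ^ (2:ℝ) := by
    congr 1; funext x
    simp only
    rw [ENNReal.mul_rpow_of_nonneg _ _ (by norm_num), h3]
  rw [e1, e2, e3] at h1
  calc (∫⁻ x, κ x * h x) ^ (2:ℝ) ≤ ((∫⁻ x, κ x) ^ (1/2:ℝ) * (∫⁻ x, κ x * h x ^ (2:ℝ)) ^ (1/2:ℝ)) ^ (2:ℝ) :=
        ENNReal.rpow_le_rpow h1 (by norm_num)
    _ = _ := by
      rw [ENNReal.mul_rpow_of_nonneg _ _ (by norm_num), ← ENNReal.rpow_mul, ← ENNReal.rpow_mul]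
      norm_num

noncomputable def MK : ℝ≥0∞ := ∫⁻ x, ‖ker x‖ₑ

theorem MK_ne_top : MK ≠ ⊤ := ker_int.2.ne

theorem ker_meas : Measurable ker := by
  unfold ker Pool.Agent.Helper366.IV.KM
  exact (measurable_inv.indicator measurableSet_ball).const_mul _

theorem eLpNorm_S (g : E → ℂ) (hg : Measurable g) (ι : ℂ →L[ℝ] E) :
    eLpNorm (S ι g) 2 volume ≤ MK * eLpNorm g 2 volume := by
  rw [eLpNorm_eq_lintegral_rpow_enorm_toReal (by norm_num) (by norm_num),
    eLpNorm_eq_lintegral_rpow_enorm_toReal (by norm_num) (by norm_num)]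
  simp only [ENNReal.toReal_ofNat]
  have hκ : Measurable (fun x => ‖ker x‖ₑ) := ker_meas.enorm
  have hpt : ∀ p, ‖S ι g p‖ₑ ^ (2:ℝ) ≤ MK * ∫⁻ x, ‖ker x‖ₑ * ‖g (p - ι x)‖ₑ ^ (2:ℝ) := by
    intro p
    have h1 : ‖S ι g p‖ₑ ≤ ∫⁻ x, ‖ker x‖ₑ * ‖g (p - ι x)‖ₑ := by
      refine (enorm_integral_le_lintegral_enorm _).trans (le_of_eq ?_)
      congr 1; funext x
      rw [enorm_mul]
    refine (ENNReal.rpow_le_rpow h1 (by norm_num)).trans ?_
    apply cs_aux _ _ hκ
    exact (hg.comp (Continuous.measurable (by fun_prop))).enorm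
  have hmeas : Measurable (fun z : E × ℂ => ‖ker z.2‖ₑ * ‖g (z.1 - ι z.2)‖ₑ ^ (2:ℝ)) := by
    apply Measurable.mul
    · exact hκ.comp measurable_snd
    · apply Measurable.pow_const
      exact (hg.comp (Continuous.measurable (by fun_prop))).enorm
  have hI : ∫⁻ p, ‖S ι g p‖ₑ ^ (2:ℝ) ≤ MK * MK * ∫⁻ p, ‖g p‖ₑ ^ (2:ℝ) := by
    calc ∫⁻ p, ‖S ι g p‖ₑ ^ (2:ℝ) ≤ ∫⁻ p, MK * ∫⁻ x, ‖ker x‖ₑ * ‖g (p - ι x)‖ₑ ^ (2:ℝ) :=
          lintegral_mono hpt
      _ = MK * ∫⁻ p, ∫⁻ x, ‖ker x‖ₑ * ‖g (p - ι x)‖ₑ ^ (2:ℝ) := by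
          rw [lintegral_const_mul]
          exact hmeas.lintegral_prod_right'
      _ = MK * ∫⁻ x, ∫⁻ p, ‖ker x‖ₑ * ‖g (p - ι x)‖ₑ ^ (2:ℝ) := by
          rw [lintegral_lintegral_swap]
          exact hmeas.aemeasurable
      _ = MK * ∫⁻ x, ‖ker x‖ₑ * ∫⁻ p, ‖g p‖ₑ ^ (2:ℝ) := by
          congr 2; funext x
          rw [lintegral_const_mul]
          · congr 1
            exact lintegral_sub_right_eq_self (fun p => ‖g p‖ₑ ^ (2:ℝ)) (ι x)
          · exact ((hg.comp (Continuous.measurable (by fun_prop))).enorm).pow_const _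
      _ = MK * MK * ∫⁻ p, ‖g p‖ₑ ^ (2:ℝ) := by
          rw [lintegral_mul_const _ hκ, mul_assoc]; rfl
  calc (∫⁻ p, ‖S ι g p‖ₑ ^ (2:ℝ)) ^ (1/2:ℝ) ≤ (MK * MK * ∫⁻ p, ‖g p‖ₑ ^ (2:ℝ)) ^ (1/2:ℝ) :=
        ENNReal.rpow_le_rpow hI (by norm_num)
    _ = _ := by
      rw [ENNReal.mul_rpow_of_nonneg _ _ (by norm_num), ENNReal.mul_rpow_of_nonneg _ _ (by norm_num),
        ← ENNReal.rpow_add_of_nonneg _ _ (by norm_num) (by norm_num)]
      norm_num

theorem eLpNorm_S_restrict (g : E → ℂ) (hg : Measurable g) (ι : ℂ →L[ℝ] E) {A : Set E}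
    (hA : MeasurableSet A) (hinv : ∀ p x, p - ι x ∈ A ↔ p ∈ A) :
    eLpNorm (S ι g) 2 (volume.restrict A) ≤ MK * eLpNorm g 2 (volume.restrict A) := by
  rw [← eLpNorm_indicator_eq_eLpNorm_restrict hA, ← eLpNorm_indicator_eq_eLpNorm_restrict hA]
  have : A.indicator (S ι g) = S ι (A.indicator g) := by
    funext p
    by_cases hp : p ∈ A
    · rw [indicator_of_mem hp]
      unfold S
      congr 1
      funext x
      rw [indicator_of_mem ((hinv p x).2 hp)]
    · rw [indicator_of_notMem hp]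
      unfold S
      symm
      rw [integral_eq_zero_of_ae]
      refine ae_of_all _ (fun x => ?_)
      show ker x * A.indicator g (p - ι x) = 0
      rw [indicator_of_notMem (fun h => hp ((hinv p x).1 h)), mul_zero]
  rw [this]
  exact eLpNorm_S _ (hg.indicator hA) ι

theorem snd_symm {f : E → ℝ} (hf : ContDiff ℝ ∞ f) (a b p : E) :
    fderiv ℝ (fun q => fderiv ℝ f q a) p b = fderiv ℝ (fun q => fderiv ℝ f q b) p a := by
  have hd : DifferentiableAt ℝ (fderiv ℝ f) p :=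
    ((hf.fderiv_right (m := ∞) (by simp)).differentiable (by simp)) p
  have h1 : ∀ a b : E, fderiv ℝ (fun q => fderiv ℝ f q a) p b = fderiv ℝ (fderiv ℝ f) p b a := by
    intro a b
    have := hd.hasFDerivAt.clm_apply (hasFDerivAt_const a p)
    rw [this.fderiv]
    simp
  rw [h1, h1]
  have hs : IsSymmSndFDerivAt ℝ f p := (hf.contDiffAt).isSymmSndFDerivAt (by simpa using two_le_infty)
  exact hs.eq b a

theorem fderiv_re {v : E → ℂ} {p : E} (hv : DifferentiableAt ℝ v p) (a : E) :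
    fderiv ℝ (fun q => (v q).re) p a = (fderiv ℝ v p a).re := by
  have := (Complex.reCLM.hasFDerivAt (x := v p)).comp p hv.hasFDerivAt
  have h2 : fderiv ℝ (fun q => (v q).re) p = Complex.reCLM.comp (fderiv ℝ v p) := this.fderiv
  rw [h2]; rfl

theorem fderiv_im {v : E → ℂ} {p : E} (hv : DifferentiableAt ℝ v p) (a : E) :
    fderiv ℝ (fun q => (v q).im) p a = (fderiv ℝ v p a).im := by
  have := (Complex.imCLM.hasFDerivAt (x := v p)).comp p hv.hasFDerivAt
  have h2 : fderiv ℝ (fun q => (v q).im) p = Complex.imCLM.comp (fderiv ℝ v p) := this.fderiv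
  rw [h2]; rfl

theorem jac_zero {f g : E → ℝ} (hf : ContDiff ℝ ∞ f) (hfc : HasCompactSupport f)
    (hg : ContDiff ℝ ∞ g) (hgc : HasCompactSupport g) (a b : E) :
    ∫ p, (fderiv ℝ f p a * fderiv ℝ g p b - fderiv ℝ f p b * fderiv ℝ g p a) = 0 := by
  have hd : ∀ {f : E → ℝ}, ContDiff ℝ ∞ f → ∀ v : E, ContDiff ℝ ∞ (fun q => fderiv ℝ f q v) :=
    fun h v => (h.fderiv_right (m := ∞) (by simp)).clm_apply contDiff_const
  have key : ∀ a b : E, ∫ p, fderiv ℝ f p a * fderiv ℝ g p b =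
      - ∫ p, fderiv ℝ (fun q => fderiv ℝ f q a) p b * g p := by
    intro a b
    have c1 : Continuous (fun q => fderiv ℝ f q a) := (hd hf a).continuous
    have c2 : Continuous (fun q => fderiv ℝ g q b) := (hd hg b).continuous
    have c3 : Continuous (fun p => fderiv ℝ (fun q => fderiv ℝ f q a) p b) :=
      (hd (hd hf a) b).continuous
    apply integral_mul_fderiv_eq_neg_fderiv_mul_of_integrable (f := fun q => fderiv ℝ f q a) (g := g)
    · exact (c3.mul hg.continuous).integrable_of_hasCompactSupport hgc.mul_left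
    · exact (c1.mul c2).integrable_of_hasCompactSupport ((hgc.fderiv_apply ℝ b).mul_left)
    · exact (c1.mul hg.continuous).integrable_of_hasCompactSupport hgc.mul_left
    · intro x _; exact ((hd hf a).differentiable (by simp)) x
    · intro x _; exact (hg.differentiable (by simp)) x
  have ci : ∀ a b : E, Integrable (fun p => fderiv ℝ f p a * fderiv ℝ g p b) := by
    intro a b
    exact ((hd hf a).continuous.mul (hd hg b).continuous).integrable_of_hasCompactSupport
      ((hgc.fderiv_apply ℝ b).mul_left)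
  rw [integral_sub (ci a b) (ci b a), key, key]
  simp_rw [snd_symm hf a b]
  simp

theorem eLpNorm_D_eq {v : E → ℂ} (hv : Cc v) (ι : ℂ →L[ℝ] E) :
    eLpNorm (D ι (-1) v) 2 volume = eLpNorm (D ι 1 v) 2 volume := by
  have h1 := hv.D ι (-1)
  have h2 := hv.D ι 1
  rw [h1.memLp.eLpNorm_eq_integral_rpow_norm (by norm_num) (by norm_num),
    h2.memLp.eLpNorm_eq_integral_rpow_norm (by norm_num) (by norm_num)]
  simp only [ENNReal.toReal_ofNat, Real.rpow_ofNat]
  congr 2
  have hi : ∀ {w : E → ℂ}, Cc w → Integrable (fun p => ‖w p‖ ^ 2) := by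
    intro w hw
    have hwc : Continuous w := hw.1.continuous
    have h5 : HasCompactSupport (fun p => ‖w p‖ ^ 2) := by
      have := hw.2.comp_left (g := fun z : ℂ => ‖z‖ ^ 2) (by simp)
      exact this
    have h6 : Continuous (fun p => ‖w p‖ ^ 2) := by fun_prop
    exact h6.integrable_of_hasCompactSupport h5
  rw [← sub_eq_zero, ← integral_sub (hi h1) (hi h2)]
  have hre : ContDiff ℝ ∞ (fun q => (v q).re) := Complex.reCLM.contDiff.comp hv.1
  have him : ContDiff ℝ ∞ (fun q => (v q).im) := Complex.imCLM.contDiff.comp hv.1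
  have hrc : HasCompactSupport (fun q => (v q).re) := hv.2.comp_left (g := Complex.re) (by simp)
  have hic : HasCompactSupport (fun q => (v q).im) := hv.2.comp_left (g := Complex.im) (by simp)
  have := jac_zero hre hrc him hic (ι 1) (ι I)
  rw [← this]
  congr 1
  funext p
  have hd : DifferentiableAt ℝ v p := hv.1.differentiable (by simp) p
  rw [fderiv_re hd, fderiv_re hd, fderiv_im hd, fderiv_im hd]
  unfold D
  rw [← Complex.normSq_eq_norm_sq, ← Complex.normSq_eq_norm_sq]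
  simp only [Complex.normSq_apply, Complex.add_re, Complex.add_im, Complex.mul_re, Complex.mul_im,
    Complex.neg_re, Complex.neg_im, Complex.one_re, Complex.one_im, Complex.I_re, Complex.I_im,
    Complex.div_ofNat_re, Complex.div_ofNat_im]
  ring

/-- Beurling bound -/
theorem beurling (ι : ℂ →L[ℝ] E) (π : E →L[ℝ] ℂ) (hπ : ∀ x, π (ι x) = x) :
    ∃ C : ℝ≥0∞, C ≠ ⊤ ∧ ∀ g : E → ℂ, Cc g → (∀ p, g p ≠ 0 → ‖π p‖ < 1) →
      eLpNorm (S ι (D ι (-1) g)) 2 (volume.restrict {p | ‖π p‖ < 1}) ≤ C * eLpNorm g 2 volume := by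
  let b : ContDiffBump (0 : ℂ) := ⟨1, 2, by norm_num, by norm_num⟩
  set β : ℂ → ℂ := fun z => ((b z : ℝ) : ℂ) with hβ
  have hβs : ContDiff ℝ ∞ β := Complex.ofRealCLM.contDiff.comp b.contDiff
  have hβc : HasCompactSupport β := b.hasCompactSupport.comp_left (g := fun x : ℝ => (x:ℂ)) (by simp)
  set χ : E → ℂ := fun p => β (π p) with hχ
  have hχs : ContDiff ℝ ∞ χ := hβs.comp π.contDiff
  have hD1 : ∀ p, D ι 1 χ p = (fderiv ℝ β (π p) 1 + 1 * I * fderiv ℝ β (π p) I) / 2 := by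
    intro p
    have h1 : HasFDerivAt χ ((fderiv ℝ β (π p)).comp π) p :=
      ((hβs.differentiable (by simp) _).hasFDerivAt).comp p π.hasFDerivAt
    unfold D
    rw [h1.fderiv]
    simp [hπ]
  have hdc : HasCompactSupport (fun z => (fderiv ℝ β z 1 + 1 * I * fderiv ℝ β z I) / 2) := by
    have h3 : HasCompactSupport ((fun q => fderiv ℝ β q 1) + (fun q => 1 * I * fderiv ℝ β q I)) :=
      (hβc.fderiv_apply ℝ 1).add ((hβc.fderiv_apply ℝ I).mul_left)
    exact h3.comp_left (g := fun z : ℂ => z / 2) (by simp)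
  have hdcont : Continuous (fun z => (fderiv ℝ β z 1 + 1 * I * fderiv ℝ β z I) / 2) := by
    have := hβs.continuous_fderiv (by simp)
    fun_prop
  obtain ⟨C₀, hC₀⟩ := hdc.exists_bound_of_continuous hdcont
  have hχ1 : ∀ p, ‖χ p‖ ≤ 1 := by
    intro p
    simp only [hχ, hβ, Complex.norm_real, Real.norm_eq_abs]
    rw [abs_of_nonneg (b.nonneg)]
    exact b.le_one
  have hχ0 : ∀ p, 2 < ‖π p‖ → χ p = 0 := by
    intro p hp
    simp only [hχ, hβ]
    rw [b.zero_of_le_dist]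
    · simp
    · show (2:ℝ) ≤ dist (π p) 0
      rw [dist_zero_right]; exact hp.le
  refine ⟨ENNReal.ofReal C₀ * MK + 1, by
    exact ENNReal.add_ne_top.2 ⟨ENNReal.mul_ne_top ENNReal.ofReal_ne_top MK_ne_top, ENNReal.one_ne_top⟩, ?_⟩
  intro g hg hs
  have hSg : Cc (S ι g) := hg.S ι π hπ
  set v : E → ℂ := fun q => χ q * S ι g q with hv
  have hvC : Cc v := ⟨hχs.mul hSg.1, hSg.2.mul_left⟩
  have hset : MeasurableSet {p : E | ‖π p‖ < 1} := (isOpen_lt (by fun_prop) continuous_const).measurableSet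
  have hopen : IsOpen {p : E | ‖π p‖ < 1} := (isOpen_lt (by fun_prop) continuous_const)
  have e1 : eLpNorm (S ι (D ι (-1) g)) 2 (volume.restrict {p | ‖π p‖ < 1}) =
      eLpNorm (D ι (-1) v) 2 (volume.restrict {p | ‖π p‖ < 1}) := by
    apply eLpNorm_congr_ae
    filter_upwards [ae_restrict_mem hset] with p hp
    have hev : v =ᶠ[𝓝 p] S ι g := by
      filter_upwards [hopen.mem_nhds hp] with q hq
      have hq' : ‖π q‖ < 1 := hq
      have : χ q = 1 := by
        simp only [hχ, hβ]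
        rw [b.one_of_mem_closedBall]
        · simp
        · rw [mem_closedBall_zero_iff]; exact hq'.le
      simp only [hv, this, one_mul]
    rw [← D_S hg]
    unfold D
    rw [hev.fderiv_eq]
  rw [e1]
  calc eLpNorm (D ι (-1) v) 2 (volume.restrict {p | ‖π p‖ < 1}) ≤ eLpNorm (D ι (-1) v) 2 volume :=
        eLpNorm_restrict_le _ _ _ _
    _ = eLpNorm (D ι 1 v) 2 volume := eLpNorm_D_eq hvC ι
    _ ≤ eLpNorm (fun p => D ι 1 χ p * S ι g p) 2 volume + eLpNorm (fun p => χ p * g p) 2 volume := by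
        have : D ι 1 v = (fun p => D ι 1 χ p * S ι g p) + (fun p => χ p * g p) := by
          funext p
          rw [hv, D_mul (hχs.differentiable (by simp) p) (hSg.1.differentiable (by simp) p)]
          simp only [Pi.add_apply]
          congr 1
          rcases le_or_gt ‖π p‖ 2 with h | h
          · rw [D_S hg, S_D hg ι π hπ hs h]
          · rw [hχ0 p h]; simp
        rw [this]
        apply eLpNorm_add_le
        · have : Continuous (D ι 1 χ) := by
            unfold D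
            have := hχs.continuous_fderiv (by simp)
            fun_prop
          exact (this.mul hSg.1.continuous).aestronglyMeasurable
        · exact (hχs.continuous.mul hg.1.continuous).aestronglyMeasurable
        · norm_num
    _ ≤ ENNReal.ofReal C₀ * eLpNorm (S ι g) 2 volume + eLpNorm g 2 volume := by
        apply add_le_add
        · apply eLpNorm_le_mul_eLpNorm_of_ae_le_mul
          refine ae_of_all _ (fun p => ?_)
          rw [norm_mul, hD1]
          exact mul_le_mul_of_nonneg_right (hC₀ _) (norm_nonneg _)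
        · apply eLpNorm_mono_ae
          refine ae_of_all _ (fun p => ?_)
          rw [norm_mul]
          exact mul_le_of_le_one_left (norm_nonneg _) (hχ1 p)
    _ ≤ ENNReal.ofReal C₀ * (MK * eLpNorm g 2 volume) + eLpNorm g 2 volume := by
        gcongr
        exact eLpNorm_S g hg.1.continuous.measurable ι
    _ = _ := by ring

end Pool.Agent.H807R3
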