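import Mathlib
import Pool.Agent.KS6_3.HT0.H807R3.Riesz

set_option autoImplicit false
open MeasureTheory Metric Set Filter Topology Complex
open scoped ContDiff ENNReal ComplexConjugate

namespace Pool.Agent.H807R3

noncomputable def i1 : ℂ →L[ℝ] E := ContinuousLinearMap.inl ℝ ℂ ℂ
noncomputable def i2 : ℂ →L[ℝ] E := ContinuousLinearMap.inr ℝ ℂ ℂ

theorem i1_apply (x : ℂ) : i1 x = (x, 0) := rfl
theorem i2_apply (x : ℂ) : i2 x = (0, x) := rfl

noncomputable def q1 : E →L[ℝ] ℂ := ContinuousLinearMap.fst ℝ ℂ ℂ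
noncomputable def q2 : E →L[ℝ] ℂ := ContinuousLinearMap.snd ℝ ℂ ℂ

theorem q1_i1 (x : ℂ) : q1 (i1 x) = x := rfl
theorem q2_i2 (x : ℂ) : q2 (i2 x) = x := rfl
theorem q1_i2 (x : ℂ) : q1 (i2 x) = 0 := rfl
theorem q2_i1 (x : ℂ) : q2 (i1 x) = 0 := rfl
theorem q1_apply (p : E) : q1 p = p.1 := rfl
theorem q2_apply (p : E) : q2 p = p.2 := rfl

/-- the punctured bidisc -/
def P : Set E := {p | ‖p.1‖ < 1 ∧ 0 < ‖p.2‖ ∧ ‖p.2‖ < 1}

theorem isOpen_P : IsOpen P := by
  have h1 : IsOpen {p : E | ‖p.1‖ < 1} := isOpen_lt (by fun_prop) continuous_const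
  have h2 : IsOpen {p : E | 0 < ‖p.2‖} := isOpen_lt continuous_const (by fun_prop)
  have h3 : IsOpen {p : E | ‖p.2‖ < 1} := isOpen_lt (by fun_prop) continuous_const
  exact h1.inter (h2.inter h3)

/-- weak derivative -/
def WD (U : Set E) (ι : ℂ →L[ℝ] E) (c : ℂ) (F G : E → ℂ) : Prop :=
  ∀ φ, IsTest U φ → ∫ p in U, F p * D ι c φ p = - ∫ p in U, G p * φ p

theorem IsTest.D {U : Set E} {φ : E → ℂ} (h : IsTest U φ) (ι : ℂ →L[ℝ] E) (c : ℂ) :
    IsTest U (D ι c φ) := by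
  refine ⟨(h.cc.D ι c).1, (h.cc.D ι c).2, ?_⟩
  refine (closure_minimal ?_ (isClosed_tsupport φ)).trans h.2.2
  intro p hp
  by_contra hn
  apply hp
  have hev : φ =ᶠ[𝓝 p] fun _ => 0 := by
    have := (notMem_tsupport_iff_eventuallyEq.1 hn)
    exact this
  show Pool.Agent.H807R3.D ι c φ p = 0
  unfold Pool.Agent.H807R3.D
  rw [hev.fderiv_eq]; simp

theorem WD.extend {U : Set E} (hU : MeasurableSet U) {ι : ℂ →L[ℝ] E} {c : ℂ} {F G : E → ℂ}
    (h : WD U ι c F G) (hF : MemLp F 2 (volume.restrict U)) (hG : MemLp G 2 (volume.restrict U))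
    (χ : ℕ → E → ℂ) (hχ : ∀ n, ContDiff ℝ ∞ (χ n)) (hb : ∀ n p, ‖χ n p‖ ≤ 1)
    (hι : ∀ n p, D ι c (χ n) p = 0) (hlim : ∀ p ∈ U, Tendsto (fun n => χ n p) atTop (𝓝 1))
    {g : E → ℂ} (hg : Cc g) (ht : ∀ n, IsTest U (fun p => χ n p * g p)) :
    ∫ p in U, F p * D ι c g p = - ∫ p in U, G p * g p := by
  have hDg := hg.D ι c
  have hconv : ∀ (H k : E → ℂ), MemLp H 2 (volume.restrict U) → Cc k →
      Tendsto (fun n => ∫ p in U, H p * (χ n p * k p)) atTop (𝓝 (∫ p in U, H p * k p)) := by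
    intro H k hH hk
    have hint : Integrable (fun p => H p * k p) (volume.restrict U) :=
      hH.integrable_mul (hk.memLp.restrict U)
    apply tendsto_integral_of_dominated_convergence (fun p => ‖H p * k p‖)
    · intro n
      exact hH.1.mul (((hχ n).continuous.mul hk.1.continuous).aestronglyMeasurable)
    · exact hint.norm
    · intro n
      refine ae_of_all _ (fun p => ?_)
      rw [norm_mul, norm_mul, norm_mul]
      have := hb n p
      have h1 : ‖χ n p‖ * ‖k p‖ ≤ ‖k p‖ := mul_le_of_le_one_left (norm_nonneg _) this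
      exact mul_le_mul_of_nonneg_left h1 (norm_nonneg _)
    · filter_upwards [ae_restrict_mem hU] with p hp
      have := (hlim p hp).mul_const (k p)
      rw [one_mul] at this
      exact this.const_mul (H p)
  have h1 := hconv F _ hF hDg
  have h2 := hconv G g hG hg
  have h3 : ∀ n, ∫ p in U, F p * (χ n p * D ι c g p) = - ∫ p in U, G p * (χ n p * g p) := by
    intro n
    rw [← h _ (ht n)]
    congr 1
    funext p
    rw [D_mul ((hχ n).differentiable (by simp) p) (hg.1.differentiable (by simp) p), hι n p]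
    ring
  simp_rw [h3] at h1
  exact tendsto_nhds_unique h1 h2.neg

/-- cutoffs -/
noncomputable def k1 (n : ℕ) (z : ℂ) : ℝ := Real.smoothTransition (n * (1 - ‖z‖ ^ 2) - 1)
noncomputable def k2 (n : ℕ) (z : ℂ) : ℝ :=
  Real.smoothTransition (n * ‖z‖ ^ 2 - 1) * Real.smoothTransition (n * (1 - ‖z‖ ^ 2) - 1)

theorem k1_smooth (n : ℕ) : ContDiff ℝ ∞ (k1 n) := by
  unfold k1
  have : ContDiff ℝ ∞ (fun z : ℂ => ‖z‖ ^ 2) := contDiff_norm_sq ℝ
  exact Real.smoothTransition.contDiff.comp ((contDiff_const.mul (contDiff_const.sub this)).sub contDiff_const)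

theorem k2_smooth (n : ℕ) : ContDiff ℝ ∞ (k2 n) := by
  unfold k2
  have : ContDiff ℝ ∞ (fun z : ℂ => ‖z‖ ^ 2) := contDiff_norm_sq ℝ
  exact (Real.smoothTransition.contDiff.comp ((contDiff_const.mul this).sub contDiff_const)).mul (k1_smooth n)

theorem k1_bound (n : ℕ) (z : ℂ) : 0 ≤ k1 n z ∧ k1 n z ≤ 1 :=
  ⟨Real.smoothTransition.nonneg _, Real.smoothTransition.le_one _⟩

theorem k2_bound (n : ℕ) (z : ℂ) : 0 ≤ k2 n z ∧ k2 n z ≤ 1 :=
  ⟨mul_nonneg (Real.smoothTransition.nonneg _) (Real.smoothTransition.nonneg _),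
    mul_le_one₀ (Real.smoothTransition.le_one _) (Real.smoothTransition.nonneg _) (Real.smoothTransition.le_one _)⟩

theorem st_ne {x : ℝ} (h : Real.smoothTransition x ≠ 0) : 0 ≤ x := by
  by_contra hlt
  push Not at hlt
  exact h (Real.smoothTransition.zero_of_nonpos hlt.le)

theorem k1_supp {n : ℕ} {z : ℂ} (h : k1 n z ≠ 0) : 0 ≤ n * (1 - ‖z‖ ^ 2) - 1 := st_ne h

theorem k2_supp {n : ℕ} {z : ℂ} (h : k2 n z ≠ 0) : 0 ≤ n * ‖z‖ ^ 2 - 1 ∧ 0 ≤ n * (1 - ‖z‖ ^ 2) - 1 :=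
  ⟨st_ne (left_ne_zero_of_mul h), st_ne (right_ne_zero_of_mul h)⟩

theorem st_lim {a : ℝ} (ha : 0 < a) : ∀ᶠ n : ℕ in atTop, Real.smoothTransition (n * a - 1) = 1 := by
  have : Tendsto (fun n : ℕ => (n : ℝ) * a - 1) atTop atTop := by
    apply tendsto_atTop_add_const_right
    exact tendsto_natCast_atTop_atTop.atTop_mul_const ha
  filter_upwards [this.eventually_ge_atTop 1] with n hn
  exact Real.smoothTransition.one_of_one_le hn

theorem D_comp_zero {ι : ℂ →L[ℝ] E} {π' : E →L[ℝ] ℂ} (h : ∀ x, π' (ι x) = 0) {κ : ℂ → ℂ}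
    (hκ : Differentiable ℝ κ) (c : ℂ) (p : E) : D ι c (fun q => κ (π' q)) p = 0 := by
  have h1 : HasFDerivAt (fun q => κ (π' q)) ((fderiv ℝ κ (π' p)).comp π') p :=
    (hκ _).hasFDerivAt.comp p π'.hasFDerivAt
  unfold D
  rw [h1.fderiv]
  simp [h]

/-- extension in the first variable -/
theorem WD.ext1 {c : ℂ} {F G : E → ℂ} (h : WD P i1 c F G) (hF : MemLp F 2 (volume.restrict P))
    (hG : MemLp G 2 (volume.restrict P)) {g : E → ℂ} (hg : Cc g)
    (hs : ∀ p ∈ tsupport g, ‖p.1‖ < 1) :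
    ∫ p in P, F p * D i1 c g p = - ∫ p in P, G p * g p := by
  refine h.extend isOpen_P.measurableSet hF hG (fun n p => ((k2 n (q2 p) : ℝ) : ℂ)) ?_ ?_ ?_ ?_ hg ?_
  · intro n
    exact Complex.ofRealCLM.contDiff.comp ((k2_smooth n).comp q2.contDiff)
  · intro n p
    rw [Complex.norm_real, Real.norm_of_nonneg (k2_bound n _).1]
    exact (k2_bound n _).2
  · intro n p
    exact D_comp_zero (κ := fun z => ((k2 n z : ℝ) : ℂ)) q2_i1
      ((Complex.ofRealCLM.contDiff.comp (k2_smooth n)).differentiable (by simp)) c p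
  · intro p hp
    apply tendsto_const_nhds.congr'
    have h1 : 0 < 1 - ‖p.2‖ ^ 2 := by
      have := hp.2.2
      have := norm_nonneg p.2
      nlinarith
    have h2 : 0 < ‖p.2‖ ^ 2 := by have := hp.2.1; positivity
    filter_upwards [st_lim h1, st_lim h2] with n hn1 hn2
    simp only [k2, q2_apply, hn1, hn2]
    simp
  · intro n
    refine ⟨(Complex.ofRealCLM.contDiff.comp ((k2_smooth n).comp q2.contDiff)).mul hg.1, hg.2.mul_left, ?_⟩
    have hcl : IsClosed (tsupport g ∩ {p : E | 0 ≤ n * ‖p.2‖ ^ 2 - 1 ∧ 0 ≤ n * (1 - ‖p.2‖ ^ 2) - 1}) := by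
      apply (isClosed_tsupport g).inter
      have a1 : IsClosed {p : E | 0 ≤ n * ‖p.2‖ ^ 2 - 1} := isClosed_le continuous_const (by fun_prop)
      have a2 : IsClosed {p : E | 0 ≤ n * (1 - ‖p.2‖ ^ 2) - 1} := isClosed_le continuous_const (by fun_prop)
      exact a1.inter a2
    refine (closure_minimal ?_ hcl).trans ?_
    · intro p hp
      have h1 : ((k2 n (q2 p) : ℝ) : ℂ) ≠ 0 := left_ne_zero_of_mul hp
      have h2 : g p ≠ 0 := right_ne_zero_of_mul hp
      exact ⟨subset_tsupport _ h2, k2_supp (by exact_mod_cast h1)⟩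
    · rintro p ⟨hp1, hp2, hp3⟩
      have hn : (0:ℝ) ≤ n := Nat.cast_nonneg n
      have hnn := norm_nonneg p.2
      refine ⟨hs p hp1, ?_, ?_⟩
      · by_contra h0
        have : ‖p.2‖ = 0 := le_antisymm (not_lt.1 h0) hnn
        rw [this] at hp2
        norm_num at hp2
      · by_contra h0
        push Not at h0
        have : (1 - ‖p.2‖ ^ 2) ≤ 0 := by nlinarith
        nlinarith [mul_nonneg hn (neg_nonneg.2 this)]

/-- extension in the second variable -/
theorem WD.ext2 {c : ℂ} {F G : E → ℂ} (h : WD P i2 c F G) (hF : MemLp F 2 (volume.restrict P))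
    (hG : MemLp G 2 (volume.restrict P)) {g : E → ℂ} (hg : Cc g)
    (hs : ∀ p ∈ tsupport g, 0 < ‖p.2‖ ∧ ‖p.2‖ < 1) :
    ∫ p in P, F p * D i2 c g p = - ∫ p in P, G p * g p := by
  refine h.extend isOpen_P.measurableSet hF hG (fun n p => ((k1 n (q1 p) : ℝ) : ℂ)) ?_ ?_ ?_ ?_ hg ?_
  · intro n
    exact Complex.ofRealCLM.contDiff.comp ((k1_smooth n).comp q1.contDiff)
  · intro n p
    rw [Complex.norm_real, Real.norm_of_nonneg (k1_bound n _).1]
    exact (k1_bound n _).2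
  · intro n p
    exact D_comp_zero (κ := fun z => ((k1 n z : ℝ) : ℂ)) q1_i2
      ((Complex.ofRealCLM.contDiff.comp (k1_smooth n)).differentiable (by simp)) c p
  · intro p hp
    apply tendsto_const_nhds.congr'
    have h1 : 0 < 1 - ‖p.1‖ ^ 2 := by
      have := hp.1
      have := norm_nonneg p.1
      nlinarith
    filter_upwards [st_lim h1] with n hn1
    simp only [k1, q1_apply, hn1]
    simp
  · intro n
    refine ⟨(Complex.ofRealCLM.contDiff.comp ((k1_smooth n).comp q1.contDiff)).mul hg.1, hg.2.mul_left, ?_⟩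
    have hcl : IsClosed (tsupport g ∩ {p : E | 0 ≤ n * (1 - ‖p.1‖ ^ 2) - 1}) := by
      apply (isClosed_tsupport g).inter
      exact (isClosed_le continuous_const (by fun_prop))
    refine (closure_minimal ?_ hcl).trans ?_
    · intro p hp
      have h1 : ((k1 n (q1 p) : ℝ) : ℂ) ≠ 0 := left_ne_zero_of_mul hp
      have h2 : g p ≠ 0 := right_ne_zero_of_mul hp
      exact ⟨subset_tsupport _ h2, k1_supp (by exact_mod_cast h1)⟩
    · rintro p ⟨hp1, hp3⟩
      have hp3 : 0 ≤ n * (1 - ‖p.1‖ ^ 2) - 1 := hp3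
      have hn : (0:ℝ) ≤ n := Nat.cast_nonneg n
      have hnn := norm_nonneg p.1
      refine ⟨?_, hs p hp1⟩
      by_contra h0
      push Not at h0
      have : (1 - ‖p.1‖ ^ 2) ≤ 0 := by nlinarith
      nlinarith [mul_nonneg hn (neg_nonneg.2 this)]

end Pool.Agent.H807R3
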