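import Mathlib
import Pool.Agent.KS6_3.HT0.H807R3.Solve2

set_option autoImplicit false
open MeasureTheory Metric Set Filter Topology Complex
open scoped ContDiff ENNReal ComplexConjugate

namespace Pool.Agent.H807R3

/-- Hardy averaging operator -/
noncomputable def Hd (ψ : E → ℂ) (p : E) : ℂ := ∫ t in (0:ℝ)..1, (t:ℂ) * ψ (p.1, (t:ℂ) * p.2)

theorem Hd_smooth {ψ : E → ℂ} (hψ : ContDiff ℝ ∞ ψ) : ContDiff ℝ ∞ (Hd ψ) := by
  let ρ : ContDiffBump (0:ℝ) := ⟨1, 2, by norm_num, by norm_num⟩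
  set f : ℝ → ℝ := (Ico (-1:ℝ) 0).indicator (fun _ => 1) with hf
  have hgs : ∀ p : E, ∀ x : ℝ, p ∈ (univ : Set E) → x ∉ closedBall (0:ℝ) 2 →
      (fun (p : E) (t : ℝ) => ((ρ t : ℝ) : ℂ) * ((t:ℂ) * ψ (p.1, (t:ℂ) * p.2))) p x = 0 := by
    intro p x _ hx
    have : ρ x = 0 := by
      apply ρ.zero_of_le_dist
      show (2:ℝ) ≤ dist x 0
      rw [mem_closedBall] at hx
      linarith
    simp only [this]; simp
  have hfi : LocallyIntegrable f := by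
    have : Integrable f := by
      rw [hf, integrable_indicator_iff measurableSet_Ico]
      exact integrableOn_const measure_Ico_lt_top.ne (by simp)
    exact this.locallyIntegrable
  have hg : ContDiffOn ℝ ∞ (Function.uncurry (fun (p : E) (t : ℝ) => ((ρ t : ℝ) : ℂ) * ((t:ℂ) * ψ (p.1, (t:ℂ) * p.2))))
      (univ ×ˢ univ) := by
    apply ContDiff.contDiffOn
    have h1 : ContDiff ℝ ∞ (fun q : E × ℝ => ((ρ q.2 : ℝ) : ℂ)) :=
      Complex.ofRealCLM.contDiff.comp (ρ.contDiff.comp contDiff_snd)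
    have h2 : ContDiff ℝ ∞ (fun q : E × ℝ => ((q.2 : ℝ) : ℂ)) :=
      Complex.ofRealCLM.contDiff.comp contDiff_snd
    have h3 : ContDiff ℝ ∞ (fun q : E × ℝ => ψ (q.1.1, ((q.2 : ℝ) : ℂ) * q.1.2)) := by
      apply hψ.comp
      exact (contDiff_fst.comp contDiff_fst).prodMk (h2.mul (contDiff_snd.comp contDiff_fst))
    exact h1.mul (h2.mul h3)
  have key := contDiffOn_convolution_right_with_param_comp (n := ⊤) (ContinuousLinearMap.lsmul ℝ ℝ)
    (v := fun _ : E => (0:ℝ)) (s := univ) contDiffOn_const (f := f) isOpen_univ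
    (isCompact_closedBall (0:ℝ) 2) hgs hfi hg
  rw [contDiffOn_univ] at key
  convert key using 2 with p
  unfold Hd
  rw [convolution_def]
  have e1 : ∀ t : ℝ, (ContinuousLinearMap.lsmul ℝ ℝ (f t)) (((ρ (0 - t) : ℝ) : ℂ) * (((0 - t : ℝ):ℂ) * ψ (p.1, ((0 - t : ℝ):ℂ) * p.2)))
      = (Ico (-1:ℝ) 0).indicator (fun t : ℝ => (((-t : ℝ):ℂ) * ψ (p.1, ((-t : ℝ):ℂ) * p.2))) t := by
    intro t
    rw [hf]
    by_cases ht : t ∈ Ico (-1:ℝ) 0
    · rw [indicator_of_mem ht, indicator_of_mem ht]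
      have : ρ (0 - t) = 1 := by
        apply ρ.one_of_mem_closedBall
        show dist (0 - t) 0 ≤ 1
        rw [dist_zero_right, zero_sub, norm_neg, Real.norm_eq_abs, abs_le]
        exact ⟨ht.1, by linarith [ht.2]⟩
      rw [this]
      simp
    · rw [indicator_of_notMem ht, indicator_of_notMem ht]; simp
  simp_rw [e1]
  rw [integral_indicator measurableSet_Ico, integral_Ico_eq_integral_Ioc,
    ← intervalIntegral.integral_of_le (by norm_num),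
    intervalIntegral.integral_comp_neg (fun t : ℝ => ((t : ℝ):ℂ) * ψ (p.1, ((t : ℝ):ℂ) * p.2))]
  simp

theorem Hd_euler {ψ : E → ℂ} (hψ : ContDiff ℝ ∞ ψ) (p : E) :
    fderiv ℝ (Hd ψ) p (0, p.2) + 2 * Hd ψ p = ψ p := by
  have hc : Continuous (fun τ : ℝ => (τ:ℂ) * ψ (p.1, (τ:ℂ) * p.2)) := by
    have := hψ.continuous
    fun_prop
  have h2 : HasDerivAt (fun s : ℝ => ∫ τ in (0:ℝ)..s, (τ:ℂ) * ψ (p.1, (τ:ℂ) * p.2))
      (((1:ℝ):ℂ) * ψ (p.1, ((1:ℝ):ℂ) * p.2)) 1 :=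
    intervalIntegral.integral_hasDerivAt_right (hc.intervalIntegrable _ _)
      (hc.stronglyMeasurableAtFilter _ _) hc.continuousAt
  have e : ∀ s : ℝ, ((s:ℂ) ^ 2) * Hd ψ (p.1, (s:ℂ) * p.2) =
      ∫ τ in (0:ℝ)..s, (τ:ℂ) * ψ (p.1, (τ:ℂ) * p.2) := by
    intro s
    have h := intervalIntegral.smul_integral_comp_mul_right (a := 0) (b := 1)
      (fun τ : ℝ => (τ:ℂ) * ψ (p.1, (τ:ℂ) * p.2)) s
    rw [zero_mul, one_mul] at h
    rw [← h]
    unfold Hd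
    rw [Complex.real_smul, ← intervalIntegral.integral_const_mul, ← intervalIntegral.integral_const_mul]
    apply intervalIntegral.integral_congr
    intro t _
    simp only
    push_cast
    have : (t:ℂ) * ((s:ℂ) * p.2) = (t:ℂ) * (s:ℂ) * p.2 := by ring
    rw [this]; ring
  have h1 : HasDerivAt (fun s : ℝ => ((s:ℂ) ^ 2) * Hd ψ (p.1, (s:ℂ) * p.2))
      ((2 * Hd ψ p) + fderiv ℝ (Hd ψ) p (0, p.2)) 1 := by
    have ha : HasDerivAt (fun s : ℝ => ((s:ℂ) ^ 2)) 2 1 := by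
      have h0 : HasDerivAt (fun s : ℝ => (s:ℂ)) 1 1 := by
        have h8 := (Complex.ofRealCLM.hasDerivAt (x := (1:ℝ)))
        have h9 : Complex.ofRealCLM 1 = 1 := by simp
        rw [h9] at h8
        exact h8
      have h10 : HasDerivAt (fun s : ℝ => ((s:ℂ) ^ 2)) ((2:ℕ) * ((1:ℝ):ℂ) ^ (2 - 1) * 1) 1 := h0.pow 2
      exact h10.congr_deriv (by norm_num)
    have hb : HasDerivAt (fun s : ℝ => ((p.1, (s:ℂ) * p.2) : E)) (0, p.2) 1 := by
      apply HasDerivAt.prodMk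
      · exact hasDerivAt_const _ _
      · have := (Complex.ofRealCLM.hasDerivAt (x := (1:ℝ))).mul_const p.2
        simpa using this
    have hp : ((p.1, ((1:ℝ):ℂ) * p.2) : E) = p := by simp
    have hF : HasFDerivAt (Hd ψ) (fderiv ℝ (Hd ψ) p) ((p.1, ((1:ℝ):ℂ) * p.2) : E) := by
      rw [hp]
      exact ((Hd_smooth hψ).differentiable (by simp) p).hasFDerivAt
    have hcomp := hF.comp_hasDerivAt (1:ℝ) hb
    have h9 : HasDerivAt (fun s : ℝ => ((s:ℂ) ^ 2) * Hd ψ (p.1, (s:ℂ) * p.2))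
      (2 * Hd ψ (p.1, ((1:ℝ):ℂ) * p.2) + ((1:ℝ):ℂ) ^ 2 * (fderiv ℝ (Hd ψ) p (0, p.2))) 1 := ha.mul hcomp
    rw [hp] at h9
    exact h9.congr_deriv (by norm_num)
  have h3 : HasDerivAt (fun s : ℝ => ((s:ℂ) ^ 2) * Hd ψ (p.1, (s:ℂ) * p.2))
      (((1:ℝ):ℂ) * ψ (p.1, ((1:ℝ):ℂ) * p.2)) 1 := by
    have : (fun s : ℝ => ((s:ℂ) ^ 2) * Hd ψ (p.1, (s:ℂ) * p.2)) =
      (fun s : ℝ => ∫ τ in (0:ℝ)..s, (τ:ℂ) * ψ (p.1, (τ:ℂ) * p.2)) := funext e
    rw [this]; exact h2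
  have := h1.unique h3
  simp only [Complex.ofReal_one, one_mul] at this
  rw [add_comm]
  exact this

theorem lintegral_scale (g : E → ℝ≥0∞) (hg : Measurable g) {t : ℝ} (ht : 0 < t) :
    ∫⁻ p : E, g (p.1, (t:ℂ) * p.2) = ENNReal.ofReal ((t ^ 2)⁻¹) * ∫⁻ p : E, g p := by
  have hm : Measurable (fun p : E => g (p.1, (t:ℂ) * p.2)) := by fun_prop
  have hv : (volume : Measure E) = (volume : Measure ℂ).prod volume := rfl
  rw [hv, lintegral_prod _ hm.aemeasurable, lintegral_prod _ hg.aemeasurable, ← lintegral_const_mul]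
  · congr 1; funext z
    have h1 := Measure.map_addHaar_smul (volume : Measure ℂ) ht.ne'
    have hgz : Measurable (fun w : ℂ => g (z, w)) := by fun_prop
    have h2 : ∫⁻ w, g (z, w) ∂(Measure.map (fun x : ℂ => t • x) volume) = ∫⁻ w, g (z, t • w) :=
      lintegral_map hgz (by fun_prop)
    have h3 : ∫⁻ w, g (z, (t:ℂ) * w) = ∫⁻ w, g (z, t • w) := by
      congr 1
    show ∫⁻ w, g (z, (t:ℂ) * w) = _
    rw [h3, ← h2, h1, lintegral_smul_measure, Complex.finrank_real_complex, abs_of_nonneg (by positivity)]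
    rfl
  · exact hg.lintegral_prod_right'

theorem cs_one {α : Type*} [MeasurableSpace α] (μ : Measure α) (h : α → ℝ≥0∞) (hh : Measurable h) :
    (∫⁻ x, h x ∂μ) ^ (2:ℝ) ≤ μ univ * ∫⁻ x, h x ^ (2:ℝ) ∂μ := by
  have h1 := ENNReal.lintegral_mul_le_Lp_mul_Lq μ
    (p := 2) (q := 2) (Real.HolderConjugate.two_two)
    (f := fun _ => 1) (g := h) measurable_const.aemeasurable hh.aemeasurable
  have e1 : (∫⁻ x, ((fun _ : α => (1:ℝ≥0∞)) * h) x ∂μ) = ∫⁻ x, h x ∂μ := by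
    congr 1; funext x; simp
  have e2 : (∫⁻ x, (fun _ : α => (1:ℝ≥0∞)) x ^ (2:ℝ) ∂μ) = μ univ := by simp
  rw [e1, e2] at h1
  calc (∫⁻ x, h x ∂μ) ^ (2:ℝ) ≤ ((μ univ) ^ (1/2:ℝ) * (∫⁻ x, h x ^ (2:ℝ) ∂μ) ^ (1/2:ℝ)) ^ (2:ℝ) :=
        ENNReal.rpow_le_rpow h1 (by norm_num)
    _ = _ := by
      rw [ENNReal.mul_rpow_of_nonneg _ _ (by norm_num), ← ENNReal.rpow_mul, ← ENNReal.rpow_mul]
      norm_num

theorem Hd_bound (ψ : E → ℂ) (hψ : Continuous ψ) : eLpNorm (Hd ψ) 2 volume ≤ eLpNorm ψ 2 volume := by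
  rw [eLpNorm_eq_lintegral_rpow_enorm_toReal (by norm_num) (by norm_num),
    eLpNorm_eq_lintegral_rpow_enorm_toReal (by norm_num) (by norm_num)]
  simp only [ENNReal.toReal_ofNat]
  apply ENNReal.rpow_le_rpow _ (by norm_num)
  set μ : Measure ℝ := volume.restrict (Ioc 0 1) with hμ
  have hμ1 : μ univ = 1 := by simp [hμ]
  have hpt : ∀ p, ‖Hd ψ p‖ₑ ^ (2:ℝ) ≤
      ∫⁻ t, (ENNReal.ofReal t * ‖ψ (p.1, (t:ℂ) * p.2)‖ₑ) ^ (2:ℝ) ∂μ := by
    intro p
    have h1 : ‖Hd ψ p‖ₑ ≤ ∫⁻ t, (ENNReal.ofReal t * ‖ψ (p.1, (t:ℂ) * p.2)‖ₑ) ∂μ := by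
      unfold Hd
      rw [intervalIntegral.integral_of_le (by norm_num)]
      refine (enorm_integral_le_lintegral_enorm _).trans (le_of_eq ?_)
      apply lintegral_congr_ae
      filter_upwards [ae_restrict_mem measurableSet_Ioc] with t ht
      rw [enorm_mul]
      congr 1
      rw [← ofReal_norm, Complex.norm_real, Real.norm_of_nonneg ht.1.le]
    refine (ENNReal.rpow_le_rpow h1 (by norm_num)).trans ?_
    have := cs_one μ (fun t => ENNReal.ofReal t * ‖ψ (p.1, (t:ℂ) * p.2)‖ₑ) (by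
      apply Measurable.mul ENNReal.measurable_ofReal
      exact (Continuous.measurable (by fun_prop)).enorm)
    rw [hμ1, one_mul] at this
    exact this
  have hmeas : Measurable (fun z : E × ℝ => (ENNReal.ofReal z.2 * ‖ψ (z.1.1, (z.2:ℂ) * z.1.2)‖ₑ) ^ (2:ℝ)) := by
    apply Measurable.pow_const
    have a1 : Measurable (fun z : E × ℝ => ENNReal.ofReal z.2) := ENNReal.measurable_ofReal.comp measurable_snd
    have a2 : Measurable (fun z : E × ℝ => ‖ψ (z.1.1, (z.2:ℂ) * z.1.2)‖ₑ) :=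
      (Continuous.measurable (by fun_prop)).enorm
    exact a1.mul a2
  calc ∫⁻ p, ‖Hd ψ p‖ₑ ^ (2:ℝ) ≤ ∫⁻ p : E, ∫⁻ t, (ENNReal.ofReal t * ‖ψ (p.1, (t:ℂ) * p.2)‖ₑ) ^ (2:ℝ) ∂μ :=
        lintegral_mono hpt
    _ = ∫⁻ t, ∫⁻ p : E, (ENNReal.ofReal t * ‖ψ (p.1, (t:ℂ) * p.2)‖ₑ) ^ (2:ℝ) ∂volume ∂μ := by
        rw [lintegral_lintegral_swap]
        exact hmeas.aemeasurable
    _ = ∫⁻ t, (∫⁻ p : E, ‖ψ p‖ₑ ^ (2:ℝ)) ∂μ := by
        apply lintegral_congr_ae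
        filter_upwards [ae_restrict_mem measurableSet_Ioc] with t ht
        have ht0 : 0 < t := ht.1
        have hg : Measurable (fun p : E => ‖ψ p‖ₑ ^ (2:ℝ)) := (hψ.measurable.enorm).pow_const _
        have h1 := lintegral_scale _ hg ht0
        calc ∫⁻ p : E, (ENNReal.ofReal t * ‖ψ (p.1, (t:ℂ) * p.2)‖ₑ) ^ (2:ℝ)
            = ∫⁻ p : E, ENNReal.ofReal t ^ (2:ℝ) * ‖ψ (p.1, (t:ℂ) * p.2)‖ₑ ^ (2:ℝ) := by
              congr 1; funext p
              rw [ENNReal.mul_rpow_of_nonneg _ _ (by norm_num)]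
          _ = ENNReal.ofReal t ^ (2:ℝ) * ∫⁻ p : E, ‖ψ (p.1, (t:ℂ) * p.2)‖ₑ ^ (2:ℝ) := by
              rw [lintegral_const_mul]
              exact ((Continuous.measurable (by fun_prop)).enorm).pow_const _
          _ = ∫⁻ p : E, ‖ψ p‖ₑ ^ (2:ℝ) := by
              rw [h1, ← mul_assoc]
              have : ENNReal.ofReal t ^ (2:ℝ) * ENNReal.ofReal ((t ^ 2)⁻¹) = 1 := by
                rw [ENNReal.ofReal_rpow_of_pos ht0, ← ENNReal.ofReal_mul (by positivity)]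
                rw [Real.rpow_two, mul_inv_cancel₀ (by positivity)]
                simp
              rw [this, one_mul]
    _ = ∫⁻ p, ‖ψ p‖ₑ ^ (2:ℝ) := by
        rw [lintegral_const, hμ1, mul_one]

end Pool.Agent.H807R3
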