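import Mathlib
import Pool.Agent.KS6_3.HT0.H807R3.Trans2

set_option autoImplicit false
open MeasureTheory Metric Set Filter Topology Complex
open scoped ContDiff ENNReal ComplexConjugate

namespace Pool.Agent.H807R3

theorem WL.add {F G : E → ℂ} (hF : WL F) (hG : WL G) : WL (fun p => F p + G p) :=
  WL_iff.2 ((WL_iff.1 hF).add (WL_iff.1 hG))

theorem WL.sub {F G : E → ℂ} (hF : WL F) (hG : WL G) : WL (fun p => F p - G p) :=
  WL_iff.2 ((WL_iff.1 hF).sub (WL_iff.1 hG))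

theorem WL.of_bdd {X : E → ℂ} (hX : MemLp X 2 (volume.restrict P)) {m : E → ℂ} (hm : Measurable m)
    (hb : ∀ p ∈ P, ‖p.2 * m p‖ ≤ 1) : WL (fun p => m p * X p) := by
  refine ⟨hm.aestronglyMeasurable.mul hX.1, ?_⟩
  refine MemLp.of_le_mul (c := 1) hX ?_ ?_
  · exact (measurable_snd.aestronglyMeasurable).mul (hm.aestronglyMeasurable.mul hX.1)
  · filter_upwards [ae_restrict_mem isOpen_P.measurableSet] with p hp
    have := hb p hp
    rw [← mul_assoc, norm_mul]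
    exact mul_le_mul_of_nonneg_right this (norm_nonneg _)

theorem WL.bmul {F : E → ℂ} (hF : WL F) {m : E → ℂ} (hm : Measurable m)
    (hb : ∀ p ∈ P, ‖m p‖ ≤ 1) : WL (fun p => m p * F p) := by
  refine ⟨hm.aestronglyMeasurable.mul hF.1, ?_⟩
  have := hF.mul (m := fun p => p.2 * m p) (measurable_snd.mul hm).aestronglyMeasurable 1 (by
    intro p hp
    rw [norm_mul, one_mul]
    exact mul_le_of_le_one_right (norm_nonneg _) (hb p hp))
  refine this.congr_norm ?_ ?_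
  · exact (measurable_snd.aestronglyMeasurable).mul (hm.aestronglyMeasurable.mul hF.1)
  · refine ae_of_all _ (fun p => ?_)
    rw [mul_assoc]

theorem meas_cj1 (c : ℂ) : Measurable (fun p : E => cj c p.1) := (ccj1 c).continuous.measurable
theorem meas_cj2 (c : ℂ) : Measurable (fun p : E => cj c p.2) := (ccj2 c).continuous.measurable

theorem div_test {ψ m : E → ℂ} (hψ : IsTest P ψ) (hm : ContDiff ℝ ∞ m) (h0 : ∀ p ∈ P, m p ≠ 0) :
    IsTest P (fun p => (m p)⁻¹ * ψ p) ∧ ∀ p, m p * ((m p)⁻¹ * ψ p) = ψ p := by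
  refine ⟨hψ.mulOn (m := fun p => (m p)⁻¹) (fun p hp => hm.contDiffAt.inv (h0 p hp)), ?_⟩
  intro p
  by_cases h : m p = 0
  · have : ψ p = 0 := by
      by_contra hne
      exact h0 p (hψ.2.2 (subset_tsupport _ hne)) h
    rw [this]; simp
  · field_simp

theorem aesm_mul {f φ : E → ℂ} (hf : MemLp f 2 (volume.restrict T)) (hφ : IsTest T φ) :
    AEStronglyMeasurable (fun p => f p * φ p) (volume.restrict T) :=
  hf.1.mul hφ.1.continuous.aestronglyMeasurable

theorem fwd1 {c : ℂ} (hc : c = 1 ∨ c = -1) {f A : E → ℂ} (hf : MemLp f 2 (volume.restrict T))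
    (hA : MemLp A 2 (volume.restrict T)) (wA : WD T i1 c f A) :
    WD P i1 c (fun p => f (Ph p)) (fun p => cj c p.2 * A (Ph p)) := by
  intro ψ hψ
  have hc2 := hcc hc
  have hcn2 := hcc (hcn hc)
  obtain ⟨hη, hηe⟩ := div_test hψ (ccj2 (-c)) (fun p hp => cj_ne hcn2 (ne_of_P hp))
  set η : E → ℂ := fun p => (cj (-c) p.2)⁻¹ * ψ p with hηd
  have hφ := test_Ps hη
  set φ : E → ℂ := fun p => η (Ps p) with hφd
  have hcomp : ∀ p, φ (Ph p) = η p := Ps_Ph_test hη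
  have key : ∀ p, ((‖p.2‖ ^ 2 : ℝ) : ℂ) * D i1 c φ (Ph p) = D i1 c ψ p := by
    intro p
    rw [star1 hc2 (hφ.1.differentiable (by simp)) p]
    congr 1
    funext q
    rw [hcomp]
    exact hηe q
  have e1 : ∫ p in P, f (Ph p) * D i1 c ψ p = ∫ p in T, f p * D i1 c φ p := by
    rw [int_T (aesm_mul hf (hφ.D i1 c))]
    congr 1
    funext p
    rw [← key p]; ring
  have e2 : ∫ p in P, (cj c p.2 * A (Ph p)) * ψ p = ∫ p in T, A p * φ p := by
    rw [int_T (aesm_mul hA hφ)]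
    congr 1
    funext p
    rw [hcomp, ← hηe p, ← cj_mul hc2]; ring
  rw [e1, e2]
  exact wA φ hφ

theorem fwd2 {c : ℂ} (hc : c = 1 ∨ c = -1) {f A C : E → ℂ} (hf : MemLp f 2 (volume.restrict T))
    (hA : MemLp A 2 (volume.restrict T)) (hC : MemLp C 2 (volume.restrict T))
    (wA : WD T i1 c f A) (wC : WD T i2 c f C) :
    WD P i2 c (fun p => f (Ph p)) (fun p => C (Ph p) + cj c p.1 * A (Ph p)) := by
  intro ψ hψ
  have hc2 := hcc hc
  have hcn2 := hcc (hcn hc)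
  obtain ⟨hη, hηe⟩ := div_test (m := fun p => cj c p.2 * cj (-c) p.2) hψ ((ccj2 c).mul (ccj2 (-c)))
    (fun p hp => mul_ne_zero (cj_ne hc2 (ne_of_P hp)) (cj_ne hcn2 (ne_of_P hp)))
  set η : E → ℂ := fun p => (cj c p.2 * cj (-c) p.2)⁻¹ * ψ p with hηd
  have hφ := test_Ps hη
  set φ : E → ℂ := fun p => η (Ps p) with hφd
  have hcomp : ∀ p, φ (Ph p) = η p := Ps_Ph_test hη
  have hθ : IsTest P (fun q => (cj (-c) q.2 * cj c q.1) * η q) := hη.mul ((ccj2 (-c)).mul (ccj1 c))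
  set θ : E → ℂ := fun q => (cj (-c) q.2 * cj c q.1) * η q with hθd
  have key : ∀ p, ((‖p.2‖ ^ 2 : ℝ) : ℂ) * D i2 c φ (Ph p) = D i2 c ψ p - D i1 c θ p := by
    intro p
    rw [star2 hc2 (hφ.1.differentiable (by simp)) p]
    simp_rw [hcomp]
    congr 2
    funext q
    exact hηe q
  have hF : WL (fun p => f (Ph p)) := WL_of_T hf
  have e1 : ∫ p in P, f (Ph p) * D i2 c ψ p =
      (∫ p in T, f p * D i2 c φ p) + ∫ p in P, f (Ph p) * D i1 c θ p := by
    have i1' := hF.int (hψ.D i2 c)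
    have i2' := hF.int (hθ.D i1 c)
    have e0 : ∫ p in T, f p * D i2 c φ p =
        (∫ p in P, f (Ph p) * D i2 c ψ p) - ∫ p in P, f (Ph p) * D i1 c θ p := by
      rw [int_T (aesm_mul hf (hφ.D i2 c)), ← integral_sub i1' i2']
      congr 1
      funext p
      have := key p
      linear_combination f (Ph p) * this
    rw [e0]; ring
  have e2 : ∫ p in T, C p * φ p = ∫ p in P, C (Ph p) * ψ p := by
    rw [int_T (aesm_mul hC hφ)]
    congr 1
    funext p
    rw [hcomp, ← hηe p, ← cj_mul hc2]; ring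
  have e3 := fwd1 hc hf hA wA θ hθ
  have e4 : ∫ p in P, (cj c p.2 * A (Ph p)) * θ p = ∫ p in P, (cj c p.1 * A (Ph p)) * ψ p := by
    congr 1
    funext p
    rw [← hηe p, hθd]; ring
  have hAP : WL (fun p => A (Ph p)) := WL_of_T hA
  have hCP : WL (fun p => C (Ph p)) := WL_of_T hC
  have i5 := hCP.int hψ
  have i6 : Integrable (fun p => (cj c p.1 * A (Ph p)) * ψ p) (volume.restrict P) := by
    have := hAP.int (hψ.mul (ccj1 c))
    refine this.congr (ae_of_all _ (fun p => ?_))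
    ring
  have e5 : ∫ p in P, (C (Ph p) + cj c p.1 * A (Ph p)) * ψ p =
      (∫ p in P, C (Ph p) * ψ p) + ∫ p in P, (cj c p.1 * A (Ph p)) * ψ p := by
    rw [← integral_add i5 i6]
    congr 1
    funext p
    ring
  rw [e1, wC φ hφ, e2, e3, e4, e5]; ring

theorem bwd {c : ℂ} (hc : c = 1 ∨ c = -1) {U X Y : E → ℂ} (hU : MemLp U 2 (volume.restrict P))
    (hX : MemLp X 2 (volume.restrict P)) (hY : MemLp Y 2 (volume.restrict P))
    (wX : WD P i1 c U X) (wY : WD P i2 c U Y) :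
    WL (fun p => (cj c p.2)⁻¹ * X p) ∧ WL (fun p => Y p - (cj c p.1 * (cj c p.2)⁻¹) * X p) ∧
    WD T i1 c (fun p => U (Ps p)) (fun p => (fun p => (cj c p.2)⁻¹ * X p) (Ps p)) ∧
    WD T i2 c (fun p => U (Ps p)) (fun p => (fun p => Y p - (cj c p.1 * (cj c p.2)⁻¹) * X p) (Ps p)) := by
  have hc2 := hcc hc
  have hcn2 := hcc (hcn hc)
  have hPm := isOpen_P.measurableSet
  have b1 : WL (fun p => (cj c p.2)⁻¹ * X p) := by
    apply WL.of_bdd hX (m := fun p => (cj c p.2)⁻¹) (meas_cj2 c).inv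
    intro p hp
    have := hp.2.1
    rw [norm_mul, norm_inv, norm_cj hc, mul_inv_cancel₀ this.ne']
  have b2 : WL (fun p => (cj c p.1 * (cj c p.2)⁻¹) * X p) := by
    apply WL.of_bdd hX (m := fun p => cj c p.1 * (cj c p.2)⁻¹) ((meas_cj1 c).mul (meas_cj2 c).inv)
    intro p hp
    have h1 := hp.2.1
    have h2 := hp.1
    rw [norm_mul, norm_mul, norm_inv, norm_cj hc, norm_cj hc]
    rw [show ‖p.2‖ * (‖p.1‖ * ‖p.2‖⁻¹) = ‖p.1‖ * (‖p.2‖ * ‖p.2‖⁻¹) by ring, mul_inv_cancel₀ h1.ne', mul_one]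
    exact h2.le
  have b3 : WL Y := by
    have := WL.of_bdd hY (m := fun _ => 1) measurable_const (by
      intro p hp; rw [mul_one]; exact hp.2.2.le)
    simpa using this
  have b4 := b3.sub b2
  have bU : WL U := by
    have := WL.of_bdd hU (m := fun _ => 1) measurable_const (by
      intro p hp; rw [mul_one]; exact hp.2.2.le)
    simpa using this
  refine ⟨b1, b4, ?_, ?_⟩
  · intro φ hφ
    have hη := test_Ph hφ
    have hd := hφ.1.differentiable (by simp)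
    have hη2 : IsTest P (fun q => cj (-c) q.2 * φ (Ph q)) := hη.mul (ccj2 (-c))
    have e1 : ∫ p in T, U (Ps p) * D i1 c φ p = ∫ p in P, U p * D i1 c (fun q => cj (-c) q.2 * φ (Ph q)) p := by
      rw [int_T (aesm_mul (memLp_of_WL bU) (hφ.D i1 c))]
      apply setIntegral_congr_fun hPm
      intro p hp
      show ((‖p.2‖ ^ 2 : ℝ) : ℂ) * (U (Ps (Ph p)) * D i1 c φ (Ph p)) = _
      rw [Ps_Ph (ne_of_P hp)]
      have := star1 hc2 hd p
      linear_combination U p * this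
    have e2 : ∫ p in T, (fun p => (cj c p.2)⁻¹ * X p) (Ps p) * φ p =
        ∫ p in P, X p * (cj (-c) p.2 * φ (Ph p)) := by
      rw [int_T (aesm_mul (memLp_of_WL b1) hφ)]
      apply setIntegral_congr_fun hPm
      intro p hp
      show ((‖p.2‖ ^ 2 : ℝ) : ℂ) * ((cj c (Ps (Ph p)).2)⁻¹ * X (Ps (Ph p)) * φ (Ph p)) = _
      rw [Ps_Ph (ne_of_P hp), ← cj_mul hc2]
      have := cj_ne hc2 (ne_of_P hp)
      field_simp
    rw [e1, e2]
    exact wX _ hη2
  · intro φ hφ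
    have hη := test_Ph hφ
    have hd := hφ.1.differentiable (by simp)
    have hη2 : IsTest P (fun q => (cj c q.2 * cj (-c) q.2) * φ (Ph q)) := hη.mul ((ccj2 c).mul (ccj2 (-c)))
    have hη3 : IsTest P (fun q => (cj (-c) q.2 * cj c q.1) * φ (Ph q)) := hη.mul ((ccj2 (-c)).mul (ccj1 c))
    have e1 : ∫ p in T, U (Ps p) * D i2 c φ p =
        (∫ p in P, U p * D i2 c (fun q => (cj c q.2 * cj (-c) q.2) * φ (Ph q)) p) -
        ∫ p in P, U p * D i1 c (fun q => (cj (-c) q.2 * cj c q.1) * φ (Ph q)) p := by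
      rw [int_T (aesm_mul (memLp_of_WL bU) (hφ.D i2 c)), ← integral_sub (bU.int (hη2.D i2 c)) (bU.int (hη3.D i1 c))]
      apply setIntegral_congr_fun hPm
      intro p hp
      show ((‖p.2‖ ^ 2 : ℝ) : ℂ) * (U (Ps (Ph p)) * D i2 c φ (Ph p)) = _
      rw [Ps_Ph (ne_of_P hp)]
      have := star2 hc2 hd p
      linear_combination U p * this
    have bX : WL X := by
      have := WL.of_bdd hX (m := fun _ => 1) measurable_const (by
        intro p hp; rw [mul_one]; exact hp.2.2.le)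
      simpa using this
    have e2 : ∫ p in T, (fun p => Y p - (cj c p.1 * (cj c p.2)⁻¹) * X p) (Ps p) * φ p =
        (∫ p in P, Y p * ((cj c p.2 * cj (-c) p.2) * φ (Ph p))) -
        ∫ p in P, X p * ((cj (-c) p.2 * cj c p.1) * φ (Ph p)) := by
      rw [int_T (aesm_mul (memLp_of_WL b4) hφ), ← integral_sub (b3.int hη2) (bX.int hη3)]
      apply setIntegral_congr_fun hPm
      intro p hp
      show ((‖p.2‖ ^ 2 : ℝ) : ℂ) * ((Y (Ps (Ph p)) - (cj c (Ps (Ph p)).1 * (cj c (Ps (Ph p)).2)⁻¹) * X (Ps (Ph p))) * φ (Ph p)) = _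
      rw [Ps_Ph (ne_of_P hp), ← cj_mul hc2]
      have := cj_ne hc2 (ne_of_P hp)
      field_simp
    have h1 := wY _ hη2
    have h2 := wX _ hη3
    rw [e1, e2, h1, h2]; ring

theorem closed_P {f1 f2 : E → ℂ} (hf1 : MemLp f1 2 (volume.restrict T)) (hf2 : MemLp f2 2 (volume.restrict T))
    (h : ∀ φ, IsTest T φ → ∫ p in T, f1 p * D i2 1 φ p = ∫ p in T, f2 p * D i1 1 φ p) :
    ∀ ψ, IsTest P ψ → ∫ p in P, f1 (Ph p) * (cj 1 p.2 * D i2 1 ψ p) =
      (∫ p in P, f2 (Ph p) * D i1 1 ψ p) + ∫ p in P, f1 (Ph p) * (cj 1 p.1 * D i1 1 ψ p) := by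
  intro ψ hψ
  have hc2 : (1:ℂ) * 1 = 1 := by norm_num
  have hcn2 : (-1:ℂ) * -1 = 1 := by norm_num
  obtain ⟨hη, hηe⟩ := div_test hψ (ccj2 (-1)) (fun p hp => cj_ne hcn2 (ne_of_P hp))
  set η : E → ℂ := fun p => (cj (-1) p.2)⁻¹ * ψ p with hηd
  have hφ := test_Ps hη
  set φ : E → ℂ := fun p => η (Ps p) with hφd
  have hcomp : ∀ p, φ (Ph p) = η p := Ps_Ph_test hη
  have hd := hφ.1.differentiable (by simp)
  have hdψ := hψ.1.differentiable (by simp)
  have key1 : ∀ p, ((‖p.2‖ ^ 2 : ℝ) : ℂ) * D i1 1 φ (Ph p) = D i1 1 ψ p := by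
    intro p
    rw [star1 hc2 hd p]
    congr 1
    funext q
    rw [hcomp]
    exact hηe q
  have key2 : ∀ p, ((‖p.2‖ ^ 2 : ℝ) : ℂ) * D i2 1 φ (Ph p) = cj 1 p.2 * D i2 1 ψ p - cj 1 p.1 * D i1 1 ψ p := by
    intro p
    rw [star2 hc2 hd p]
    have a1 : (fun q => (cj 1 q.2 * cj (-1) q.2) * φ (Ph q)) = fun q => cj 1 q.2 * ψ q := by
      funext q
      rw [hcomp, ← hηe q]; ring
    have a2 : (fun q => (cj (-1) q.2 * cj 1 q.1) * φ (Ph q)) = fun q => cj 1 q.1 * ψ q := by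
      funext q
      rw [hcomp, ← hηe q]; ring
    rw [a1, a2, D_mul (dcj2 _ _) (hdψ p), D_mul (dcj1 _ _) (hdψ p), D2_cj2, D1_cj1]
    ring
  have hF1 : WL (fun p => f1 (Ph p)) := WL_of_T hf1
  have t1 : IsTest P (fun p => cj 1 p.2 * D i2 1 ψ p) := (hψ.D i2 1).mul (ccj2 1)
  have t2 : IsTest P (fun p => cj 1 p.1 * D i1 1 ψ p) := (hψ.D i1 1).mul (ccj1 1)
  have e1 : ∫ p in T, f1 p * D i2 1 φ p = (∫ p in P, f1 (Ph p) * (cj 1 p.2 * D i2 1 ψ p)) -
      ∫ p in P, f1 (Ph p) * (cj 1 p.1 * D i1 1 ψ p) := by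
    rw [int_T (aesm_mul hf1 (hφ.D i2 1)), ← integral_sub (hF1.int t1) (hF1.int t2)]
    congr 1
    funext p
    have := key2 p
    linear_combination f1 (Ph p) * this
  have e2 : ∫ p in T, f2 p * D i1 1 φ p = ∫ p in P, f2 (Ph p) * D i1 1 ψ p := by
    rw [int_T (aesm_mul hf2 (hφ.D i1 1))]
    congr 1
    funext p
    have := key1 p
    linear_combination f2 (Ph p) * this
  have := h φ hφ
  rw [e1, e2] at this
  linear_combination this

end Pool.Agent.H807R3
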